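import Pool.Agent.DTW.All

/-!
# MP_05fd65_gt, Q1: the twisted Dehn twist commutators have finite order

`S E` is the unit sphere `Sⁿ` of a real inner product space `E` of dimension `n + 1`, `n ≥ 1`, that
is, of `ℝⁿ⁺¹`; `TS E = {(x, p) : |x| = 1, x ⊥ p}` is `T*Sⁿ`, with the form `∑ dpᵢ ∧ dxᵢ` (`om`).
`dt A` is the model Dehn twist `τ` or its inverse
(`A.θ = π` or `- π` near `0`; the two signs cover both sign conventions), `pullFun φ` the pull-back
of covectors `φ*`.  `Iso0 g`: `g` is isotopic to the identity through compactly supported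
symplectomorphisms; `IsoS φ`: `φ` is isotopic to the identity through diffeomorphisms of `Sⁿ`.

Theorem.  Let `φ` be a diffeomorphism of `Sⁿ`, `n ≥ 1`, and `ρ` a linear isometry of `E` such that
`ρ ∘ φ` preserves the orientation (`ρ = 1` if `φ` does, a reflection otherwise).  If `(ρ ∘ φ)^m`
is isotopic to the identity, then `(τ⁻¹ τ_φ) ^ (2 m)`, where `τ_φ = φ* τ (φ⁻¹)*`, is isotopic to the
identity through compactly supported symplectomorphisms.

For `n > 5` the group `π₀ Diff⁺(Sⁿ) = Θₙ₊₁` is finite (known facts listed in the problem file), so such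
an `m ≥ 1` exists for every `φ`; and the hypothesis of Q1 implies `n > 5`.
-/

set_option autoImplicit false

open scoped ContDiff

noncomputable section

namespace Pool.Agent.Results.MP_05fd65_gt.FiniteOrder

open Pool.Agent.DTW

theorem result (E : Type) [NormedAddCommGroup E] [InnerProductSpace ℝ E]
    [FiniteDimensional ℝ E] (hdim : 2 ≤ Module.finrank ℝ E) (A : Angle)
    (φ : Equiv.Perm (S E)) (hφ : IsDiffeo (S E) φ) (ρ : E ≃ₗᵢ[ℝ] E)
    (hor : OrPres (rot ρ * φ)) (m : ℕ) (hm : IsoS ((rot ρ * φ) ^ m)) :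
    ∃ P Q : Equiv.Perm (TS E), (∀ z, P z = pullFun φ z) ∧ (∀ z, Q z = pullFun φ⁻¹ z) ∧
      P * Q = 1 ∧ SympC (dt A : Equiv.Perm (TS E)) ∧ SympC ((dt A)⁻¹ * (P * dt A * Q)) ∧
      Iso0 (((dt A)⁻¹ * (P * dt A * Q)) ^ (2 * m)) := by
  have h1 := (All_.PB1 E).1 φ hφ
  have h2 := (All_.PB1 E).1 φ⁻¹ hφ.inv
  have h3 : (dt A : Equiv.Perm (TS E)) ∈ CG E := All_.DTC E A
  refine ⟨pull φ, pull φ⁻¹, h1.1, h2.1, ?_, h3, ?_, All_.FIN E hdim A φ ρ m hφ hor hm⟩
  · rw [h1.2, mul_inv_cancel]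
  · rw [h1.2]
    exact (CG _).mul_mem ((CG _).inv_mem h3)
      ((All_.NRM E (pull φ) (All_.PBS E φ hφ)).1 _ h3)

end Pool.Agent.Results.MP_05fd65_gt.FiniteOrder
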